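import Pool.Agent.Helper27_QL.Stmt

set_option autoImplicit false
set_option linter.unusedVariables false
open Matrix Polynomial MeasureTheory Set Filter Topology

namespace QL.H14

theorem kerMap_ker : QL.kerMap_kerStatement := by
  intro E _ _ F v
  unfold kerMap
  rw [LinearMap.comp_apply, Submodule.subtype_apply]
  rw [Submodule.coe_eq_zero]
  exact Submodule.projectionOnto_apply_eq_zero_iff _

theorem tens1_apply {ι : Type} [Fintype ι] (A : Matrix ι ι ℝ) (w : (Fin 1 → ι) → ℝ)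
    (i : Fin 1 → ι) :
    (tens 1 A *ᵥ w) i = (A *ᵥ (fun a => w (fun _ => a))) (i 0) := by
  unfold tens Matrix.mulVec dotProduct
  rw [← Equiv.sum_comp (Equiv.funUnique (Fin 1) ι).symm]
  apply Finset.sum_congr rfl
  intro a _
  simp only [Finset.univ_unique, Finset.prod_singleton, Equiv.funUnique_symm_apply]
  rfl

theorem tens2_mt {ι : Type} [Fintype ι] (A M : Matrix ι ι ℝ) :
    tens 2 A *ᵥ (mt M) = mt (A * M * Aᵀ) := by
  ext i
  have h1 : (tens 2 A *ᵥ (mt M)) i =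
      ∑ x : ι, ∑ y : ι, (A (i 0) x * A (i 1) y) * M x y := by
    unfold tens Matrix.mulVec dotProduct
    rw [← Equiv.sum_comp (finTwoArrowEquiv ι).symm, Fintype.sum_prod_type]
    apply Finset.sum_congr rfl
    intro x _
    apply Finset.sum_congr rfl
    intro y _
    simp only [Fin.prod_univ_two, finTwoArrowEquiv_symm_apply, Matrix.cons_val_zero,
      Matrix.cons_val_one]
    rfl
  have h2 : (mt (A * M * Aᵀ)) i = ∑ y : ι, (∑ x : ι, A (i 0) x * M x y) * A (i 1) y := by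
    show (A * M * Aᵀ) (i 0) (i 1) = _
    simp only [Matrix.mul_apply, Matrix.transpose_apply]
  rw [h1, h2, Finset.sum_comm]
  apply Finset.sum_congr rfl
  intro y _
  rw [Finset.sum_mul]
  apply Finset.sum_congr rfl
  intro x _
  ring

theorem mt_inj {ι : Type} {M M' : Matrix ι ι ℝ} (h : mt M = mt M') : M = M' := by
  ext i j
  exact congrFun h ![i, j]

theorem mem_map_mt {ι : Type} (F : Submodule ℝ (Matrix ι ι ℝ)) (M : Matrix ι ι ℝ) :
    mt M ∈ F.map mt ↔ M ∈ F := by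
  constructor
  · rintro ⟨M', hM', h⟩
    rw [← mt_inj h]; exact hM'
  · intro h
    exact ⟨M, h, rfl⟩

/-- the integer matrix of an integer 2-tensor -/
def toM {ι : Type} (w : (Fin 2 → ι) → ℤ) : Matrix ι ι ℤ := fun i j => w ![i, j]

theorem mt_toM {ι : Type} (w : (Fin 2 → ι) → ℤ) : mt (im (toM w)) = iv w := by
  ext i
  show ((w ![i 0, i 1] : ℤ) : ℝ) = (w i : ℝ)
  congr 2
  ext k
  fin_cases k <;> rfl

/-- the integer 2-tensor of an integer matrix -/
def toW {ι : Type} (R : Matrix ι ι ℤ) : (Fin 2 → ι) → ℤ := fun i => R (i 0) (i 1)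

theorem toM_toW {ι : Type} (R : Matrix ι ι ℤ) : toM (toW R) = R := by
  ext i j; rfl

theorem toW_toM {ι : Type} (w : (Fin 2 → ι) → ℤ) : toW (toM w) = w := by
  ext i
  show w ![i 0, i 1] = w i
  congr 1
  ext k
  fin_cases k <;> rfl

theorem inv_mul' {ι : Type} [Fintype ι] [DecidableEq ι] {g : Matrix ι ι ℝ} (hg : g.det = 1) :
    g⁻¹ * g = 1 := Matrix.nonsing_inv_mul _ (by rw [hg]; exact isUnit_one)

theorem mul_inv' {ι : Type} [Fintype ι] [DecidableEq ι] {g : Matrix ι ι ℝ} (hg : g.det = 1) :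
    g * g⁻¹ = 1 := Matrix.mul_nonsing_inv _ (by rw [hg]; exact isUnit_one)

/-- kernel condition for `tube1` -/
theorem tube1_ker {ι : Type} [Fintype ι] [DecidableEq ι] (l : ι → ℝ) {g : Matrix ι ι ℝ}
    (hg : g.det = 1) (w : (Fin 1 → ι) → ℝ) :
    (tube1 l).Pi (ract false 1 g w) = 0 ↔ ∃ c : ℝ, (fun a => w (fun _ => a)) = c • (l ᵥ* g) := by
  have key : (tube1 l).Pi (ract false 1 g w) = 0 ↔
      ∃ c : ℝ, c • (fun i : Fin 1 → ι => l (i 0)) = ract false 1 g w := by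
    have h1 := kerMap_ker (Submodule.span ℝ {fun i : Fin 1 → ι => l (i 0)}) (ract false 1 g w)
    rw [Submodule.mem_span_singleton] at h1
    exact h1
  rw [key]
  constructor
  · rintro ⟨c, hc⟩
    refine ⟨c, ?_⟩
    have h2 : (g⁻¹)ᵀ *ᵥ (fun a => w (fun _ => a)) = c • l := by
      ext a
      have := congrFun hc (fun _ => a)
      simp only [ract, Bool.false_eq_true, if_false, tens1_apply] at this
      rw [← this]; rfl
    have h3 : gᵀ *ᵥ ((g⁻¹)ᵀ *ᵥ (fun a => w (fun _ => a))) = (fun a => w (fun _ => a)) := by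
      rw [Matrix.mulVec_mulVec, ← Matrix.transpose_mul, inv_mul' hg, Matrix.transpose_one,
        Matrix.one_mulVec]
    rw [← h3, h2, Matrix.mulVec_smul, Matrix.mulVec_transpose]
  · rintro ⟨c, hc⟩
    refine ⟨c, ?_⟩
    ext i
    simp only [ract, Bool.false_eq_true, if_false, tens1_apply]
    rw [hc, Matrix.mulVec_smul]
    have h3 : (g⁻¹)ᵀ *ᵥ (l ᵥ* g) = l := by
      rw [Matrix.mulVec_transpose, Matrix.vecMul_vecMul, mul_inv' hg, Matrix.vecMul_one]
    rw [h3]; rfl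

theorem ract2 {ι : Type} [Fintype ι] [DecidableEq ι] (g M : Matrix ι ι ℝ) :
    ract false 2 g (mt M) = mt ((g⁻¹)ᵀ * M * g⁻¹) := by
  simp only [ract, Bool.false_eq_true, if_false, tens2_mt, Matrix.transpose_transpose]

/-- kernel condition for `tube2` -/
theorem tube2_ker {ι : Type} [Fintype ι] [DecidableEq ι] (F : Submodule ℝ (Matrix ι ι ℝ))
    {g : Matrix ι ι ℝ} (hg : g.det = 1) (M : Matrix ι ι ℝ) :
    (tube2 F).Pi (ract false 2 g (mt M)) = 0 ↔ ∃ N ∈ F, M = gᵀ * N * g := by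
  have key : (tube2 F).Pi (ract false 2 g (mt M)) = 0 ↔ (g⁻¹)ᵀ * M * g⁻¹ ∈ F := by
    have h1 := kerMap_ker (F.map mt) (ract false 2 g (mt M))
    rw [ract2, mem_map_mt] at h1
    rw [ract2]
    exact h1
  rw [key]
  constructor
  · intro h
    refine ⟨_, h, ?_⟩
    have e1 : gᵀ * ((g⁻¹)ᵀ * M * g⁻¹) * g = (gᵀ * (g⁻¹)ᵀ) * M * (g⁻¹ * g) := by
      simp only [Matrix.mul_assoc]
    rw [e1, inv_mul' hg, ← Matrix.transpose_mul, inv_mul' hg]
    simp
  · rintro ⟨N, hN, h⟩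
    have e1 : (g⁻¹)ᵀ * (gᵀ * N * g) * g⁻¹ = ((g⁻¹)ᵀ * gᵀ) * N * (g * g⁻¹) := by
      simp only [Matrix.mul_assoc]
    rw [h, e1, mul_inv' hg, ← Matrix.transpose_mul, mul_inv' hg]
    simpa using hN

theorem sing1_aux {ι : Type} [Fintype ι] [DecidableEq ι] (l : ι → ℝ) (g : Matrix ι ι ℝ)
    (hg : g.det = 1) :
    (∃ w : (Fin 1 → ι) → ℤ, w ≠ 0 ∧ (tube1 l).Pi (ract false 1 g (iv w)) = 0) ↔
    ∃ w : ι → ℤ, w ≠ 0 ∧ ∃ c : ℝ, iv w = c • (l ᵥ* g) := by
  constructor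
  · rintro ⟨w, hw, h⟩
    refine ⟨fun a => w (fun _ => a), ?_, ?_⟩
    · intro h0
      apply hw
      ext i
      have h1 := congrFun h0 (i 0)
      have h2 : i = fun _ => i 0 := by ext k; rw [Subsingleton.elim k 0]
      rw [h2]; exact h1
    · obtain ⟨c, hc⟩ := (tube1_ker l hg (iv w)).1 h
      exact ⟨c, hc⟩
  · rintro ⟨w, hw, c, hc⟩
    refine ⟨fun i => w (i 0), ?_, ?_⟩
    · intro h0
      apply hw
      ext a
      exact congrFun h0 (fun _ => a)
    · exact (tube1_ker l hg (iv (fun i : Fin 1 → ι => w (i 0)))).2 ⟨c, hc⟩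

theorem sing_tube1 : QL.sing_tube1Statement := by
  intro ι _ _ l g hg
  exact sing1_aux l g hg

theorem sing2_aux {ι : Type} [Fintype ι] [DecidableEq ι] (F : Submodule ℝ (Matrix ι ι ℝ))
    (g : Matrix ι ι ℝ) (hg : g.det = 1) :
    (∃ w : (Fin 2 → ι) → ℤ, w ≠ 0 ∧ (tube2 F).Pi (ract false 2 g (iv w)) = 0) ↔
    ∃ R : Matrix ι ι ℤ, R ≠ 0 ∧ ∃ M ∈ F, im R = gᵀ * M * g := by
  constructor
  · rintro ⟨w, hw, h⟩
    refine ⟨toM w, ?_, ?_⟩
    · intro h0
      apply hw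
      rw [← toW_toM w]
      rw [h0]; rfl
    · have h' : (tube2 F).Pi (ract false 2 g (mt (im (toM w)))) = 0 := by
        rw [mt_toM]; exact h
      exact (tube2_ker F hg _).1 h'
  · rintro ⟨R, hR, h⟩
    refine ⟨toW R, ?_, ?_⟩
    · intro h0
      apply hR
      rw [← toM_toW R, h0]; rfl
    · have h' : (tube2 F).Pi (ract false 2 g (mt (im R))) = 0 := (tube2_ker F hg _).2 h
      have e : mt (im R) = iv (toW R) := by
        rw [← mt_toM, toM_toW]
      rw [e] at h'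
      exact h'

theorem sing_tube2 : QL.sing_tube2Statement := by
  intro ι _ _ F g hg
  exact sing2_aux F g hg

/-- two integer vectors proportional to the same real vector are linearly dependent over `ℤ` -/
theorem dep_of_prop {κ : Type} (w w' : κ → ℤ) (v : κ → ℝ) (c c' : ℝ) (h : iv w = c • v)
    (h' : iv w' = c' • v) : ∃ a b : ℤ, (a ≠ 0 ∨ b ≠ 0) ∧ a • w + b • w' = 0 := by
  by_cases hw : w = 0
  · exact ⟨1, 0, Or.inl one_ne_zero, by simp [hw]⟩
  · obtain ⟨j, hj⟩ : ∃ j, w j ≠ 0 := by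
      by_contra hcon
      push Not at hcon
      exact hw (funext hcon)
    refine ⟨w' j, -(w j), Or.inr (neg_ne_zero.2 hj), ?_⟩
    ext i
    have e1 : ((w' j * w i + -(w j) * w' i : ℤ) : ℝ) = 0 := by
      push_cast
      have a1 : (w' j : ℝ) = c' * v j := congrFun h' j
      have a2 : (w' i : ℝ) = c' * v i := congrFun h' i
      have a3 : (w j : ℝ) = c * v j := congrFun h j
      have a4 : (w i : ℝ) = c * v i := congrFun h i
      rw [a1, a2, a3, a4]; ring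
    have e2 : w' j * w i + -(w j) * w' i = 0 := by exact_mod_cast e1
    simpa using e2

theorem uniq_tube1 : QL.uniq_tube1Statement := by
  intro ι _ _ l L hL
  refine ⟨hL, ?_⟩
  intro g hg w w' h h'
  obtain ⟨c, hc⟩ := (tube1_ker l hg.1 (iv w)).1 h
  obtain ⟨c', hc'⟩ := (tube1_ker l hg.1 (iv w')).1 h'
  have e : ∀ u : (Fin 1 → ι) → ℤ, ∀ d : ℝ, (fun a => iv u (fun _ => a)) = d • (l ᵥ* g) →
      iv u = d • (fun i : Fin 1 → ι => (l ᵥ* g) (i 0)) := by
    intro u d hd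
    ext i
    have h2 : i = fun _ => i 0 := by ext k; rw [Subsingleton.elim k 0]
    have := congrFun hd (i 0)
    rw [h2]; exact this
  exact dep_of_prop w w' _ c c' (e w c hc) (e w' c' hc')

theorem uniq_tube2_line : QL.uniq_tube2_lineStatement := by
  intro ι _ _ Q L hL
  refine ⟨hL, ?_⟩
  intro g hg w w' h h'
  have e : ∀ u : (Fin 2 → ι) → ℤ,
      (tube2 (Submodule.span ℝ {Q})).Pi (ract false 2 g (iv u)) = 0 →
      ∃ d : ℝ, iv u = d • mt (gᵀ * Q * g) := by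
    intro u hu
    rw [← mt_toM] at hu
    obtain ⟨N, hN, hM⟩ := (tube2_ker _ hg.1 _).1 hu
    obtain ⟨d, rfl⟩ := Submodule.mem_span_singleton.1 hN
    refine ⟨d, ?_⟩
    rw [← mt_toM, hM]
    rw [← map_smul]
    congr 1
    simp
  obtain ⟨d, hd⟩ := e w h
  obtain ⟨d', hd'⟩ := e w' h'
  exact dep_of_prop w w' _ d d' hd hd'

theorem fix1_aux {ι : Type} [Fintype ι] [DecidableEq ι] (l : ι → ℝ) (u : Matrix ι ι ℝ)
    (hu : u.det = 1) (hl : l ᵥ* u = l) (v : (Fin 1 → ι) → ℝ)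
    (hv : (tube1 l).Pi v = 0) : ract false 1 u v = v := by
  have hv' : v ∈ Submodule.span ℝ {fun i : Fin 1 → ι => l (i 0)} := (kerMap_ker _ v).1 hv
  obtain ⟨c, hc⟩ := Submodule.mem_span_singleton.1 hv'
  have e : (fun a => v (fun _ => a)) = c • l := by
    rw [← hc]; rfl
  have h3 : (u⁻¹)ᵀ *ᵥ l = l := by
    conv_lhs => rw [← hl]
    rw [Matrix.mulVec_transpose, Matrix.vecMul_vecMul, mul_inv' hu, Matrix.vecMul_one]
  ext i
  simp only [ract, Bool.false_eq_true, if_false, tens1_apply]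
  rw [e, Matrix.mulVec_smul, h3, ← hc]; rfl

theorem fix_tube1 : QL.fix_tube1Statement := by
  intro ι _ _ l u hu hl v hv
  exact fix1_aux l u hu hl v hv

theorem fix2_aux {ι : Type} [Fintype ι] [DecidableEq ι] (F : Submodule ℝ (Matrix ι ι ℝ))
    (u : Matrix ι ι ℝ) (hu : u.det = 1) (hF : ∀ M ∈ F, uᵀ * M * u = M)
    (v : (Fin 2 → ι) → ℝ) (hv : (tube2 F).Pi v = 0) : ract false 2 u v = v := by
  have hv' : v ∈ F.map mt := (kerMap_ker _ v).1 hv
  obtain ⟨M, hM, rfl⟩ := hv'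
  rw [ract2]
  congr 1
  have e1 : (u⁻¹)ᵀ * (uᵀ * M * u) * u⁻¹ = ((u⁻¹)ᵀ * uᵀ) * M * (u * u⁻¹) := by
    simp only [Matrix.mul_assoc]
  conv_lhs => rw [← hF M hM]
  rw [e1, mul_inv' hu, ← Matrix.transpose_mul, mul_inv' hu]
  simp

theorem fix_tube2 : QL.fix_tube2Statement := by
  intro ι _ _ F u hu hF v hv
  exact fix2_aux F u hu hF v hv

theorem uniq_tube2_pencil (hp : QL.pencilStatement) : QL.uniq_tube2_pencilStatement := by
  intro ι _ _ Q l hl hrk L hL hmem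
  refine ⟨hL, ?_⟩
  intro g hg w w' h h'
  have hgu : IsUnit g.det := by rw [hg.1]; exact isUnit_one
  have e : ∀ u : (Fin 2 → ι) → ℤ,
      (tube2 (Submodule.span ℝ {Q, vecMulVec l l})).Pi (ract false 2 g (iv u)) = 0 →
      ∃ a b : ℝ, im (toM u) = a • (gᵀ * Q * g) + b • vecMulVec (l ᵥ* g) (l ᵥ* g) := by
    intro u hu
    rw [← mt_toM] at hu
    obtain ⟨N, hN, hM⟩ := (tube2_ker _ hg.1 _).1 hu
    obtain ⟨a, b, rfl⟩ := Submodule.mem_span_pair.1 hN
    refine ⟨a, b, ?_⟩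
    rw [hM]
    have e1 : gᵀ * vecMulVec l l * g = vecMulVec (l ᵥ* g) (l ᵥ* g) := by
      rw [Matrix.mul_vecMulVec, Matrix.vecMulVec_mul, Matrix.mulVec_transpose]
    simp only [Matrix.mul_add, Matrix.add_mul, Matrix.mul_smul, Matrix.smul_mul]
    rw [e1]
  by_contra hcon
  push Not at hcon
  have hind : ∀ a b : ℤ, a • toM w + b • toM w' = 0 → a = 0 ∧ b = 0 := by
    intro a b hab
    by_contra hne
    have hne' : a ≠ 0 ∨ b ≠ 0 := by
      by_contra hx
      push Not at hx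
      exact hne hx
    apply hcon a b hne'
    have : toW (a • toM w + b • toM w') = toW 0 := by rw [hab]
    have e2 : toW (a • toM w + b • toM w') = a • w + b • w' := by
      conv_rhs => rw [← toW_toM w, ← toW_toM w']
      rfl
    rw [← e2, this]; rfl
  have hlg : l ᵥ* g ≠ 0 := by
    intro h0
    apply hl
    have : (l ᵥ* g) ᵥ* g⁻¹ = 0 := by rw [h0, Matrix.zero_vecMul]
    rwa [Matrix.vecMul_vecMul, mul_inv' hg.1, Matrix.vecMul_one] at this
  obtain ⟨z, hz, c, hc⟩ := hp (gᵀ * Q * g) (l ᵥ* g) hlg (by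
    intro a b ha
    rintro ⟨v, v', hv⟩
    apply hrk a b ha
    refine ⟨(g⁻¹)ᵀ *ᵥ v, v' ᵥ* g⁻¹, ?_⟩
    have e1 : gᵀ * vecMulVec l l * g = vecMulVec (l ᵥ* g) (l ᵥ* g) := by
      rw [Matrix.mul_vecMulVec, Matrix.vecMulVec_mul, Matrix.mulVec_transpose]
    have e3 : gᵀ * (a • Q + b • vecMulVec l l) * g = vecMulVec v v' := by
      rw [← hv]
      simp only [Matrix.mul_add, Matrix.add_mul, Matrix.mul_smul, Matrix.smul_mul]
      rw [e1]
    have e4 : (g⁻¹)ᵀ * (gᵀ * (a • Q + b • vecMulVec l l) * g) * g⁻¹ =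
        a • Q + b • vecMulVec l l := by
      have e5 : (g⁻¹)ᵀ * (gᵀ * (a • Q + b • vecMulVec l l) * g) * g⁻¹ =
          ((g⁻¹)ᵀ * gᵀ) * (a • Q + b • vecMulVec l l) * (g * g⁻¹) := by
        simp only [Matrix.mul_assoc]
      rw [e5, mul_inv' hg.1, ← Matrix.transpose_mul, mul_inv' hg.1]
      simp
    rw [← e4, e3, Matrix.mul_vecMulVec, Matrix.vecMulVec_mul]) (toM w) (toM w')
    (e w h) (e w' h') hind
  have hns := hg.2 (tube1 l) hmem
  exact hns ((sing_tube1 l g hg.1).2 ⟨z, hz, c, hc⟩)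

end QL.H14
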