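import Pool.Agent.Helper27_QL.StmtApp12
import Pool.Agent.Helper14_QL.Tubes

set_option autoImplicit false
set_option linter.unusedVariables false
open Matrix Polynomial MeasureTheory Set Filter Topology

namespace QL.H14

theorem det_u4 (t : ℝ) : (u4 t).det = 1 := by
  simp [u4, Matrix.det_succ_row_zero, Fin.sum_univ_succ, Fin.succAbove]

theorem det_n4 (b μ α : ℝ) : (n4 b μ α).det = 1 := by
  simp [n4, Matrix.det_succ_row_zero, Fin.sum_univ_succ, Fin.succAbove]

theorem det_a4 (l : ℝ) (hl : l ≠ 0) : (a4 l).det = 1 := by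
  simp [a4, Matrix.det_succ_row_zero, Fin.sum_univ_succ, Fin.succAbove, hl]

theorem det_z4 (c : ℝ) (hc : c ≠ 0) : (z4 c).det = 1 := by
  rw [z4, Matrix.det_diagonal]
  simp only [Fin.prod_univ_four, Matrix.cons_val]
  field_simp

theorem u4_mul (s t : ℝ) : u4 s * u4 t = u4 (s + t) := by
  ext i j
  fin_cases i <;> fin_cases j <;>
    simp [u4, Matrix.mul_apply, Fin.sum_univ_four] <;> ring

theorem n4_mul (b μ α b' μ' α' : ℝ) :
    n4 b μ α * n4 b' μ' α' = n4 (b+b') (μ+μ') (α+α'+μ*b') := by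
  ext i j
  fin_cases i <;> fin_cases j <;>
    simp [n4, Matrix.mul_apply, Fin.sum_univ_four] <;> ring

theorem n4_u4 (b μ α t : ℝ) : n4 b μ α * u4 t = u4 t * n4 b μ α := by
  ext i j
  fin_cases i <;> fin_cases j <;>
    simp [n4, u4, Matrix.mul_apply, Fin.sum_univ_four] <;> ring

theorem z4_u4 (c t : ℝ) : z4 c * u4 t = u4 t * z4 c := by
  ext i j
  fin_cases i <;> fin_cases j <;>
    simp [z4, u4, Matrix.mul_apply, Fin.sum_univ_four, Matrix.diagonal_apply] <;> ring

theorem z4_a4 (c l : ℝ) : z4 c * a4 l = a4 l * z4 c := by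
  ext i j
  fin_cases i <;> fin_cases j <;>
    simp [z4, a4, Matrix.mul_apply, Fin.sum_univ_four, Matrix.diagonal_apply] <;> ring

theorem a4_n4 (l b μ α : ℝ) (hl : l ≠ 0) :
    a4 l * n4 b μ α = n4 (l*b) (l*μ) (l^2*α) * a4 l := by
  ext i j
  fin_cases i <;> fin_cases j <;>
    simp [n4, a4, Matrix.mul_apply, Fin.sum_univ_four] <;> field_simp

theorem a4_a4 (l l' : ℝ) (hl : l ≠ 0) (hl' : l' ≠ 0) : a4 l * a4 l' = a4 (l * l') := by
  ext i j
  fin_cases i <;> fin_cases j <;>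
    simp [a4, Matrix.mul_apply, Fin.sum_univ_four] <;> field_simp

theorem alg4 : QL.alg4Statement :=
  ⟨n4_mul, n4_u4, z4_u4, z4_a4, a4_n4, u4_mul, det_u4, det_n4, det_a4, det_z4, a4_a4⟩

theorem U4_exists : QL.U4_existsStatement := by
  refine ⟨{ pol := !![1,0,0,0; MvPolynomial.X 0,1,0,0;
      MvPolynomial.C (1/2) * MvPolynomial.X 0 ^ 2, MvPolynomial.X 0,1,0; 0,0,0,1]
            u := fun w => u4 (w 0)
            spec := ?_
            det_one := fun w => det_u4 _
            add := ?_ }, fun w => rfl⟩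
  · intro w i j
    fin_cases i <;> fin_cases j <;> simp [u4] <;> ring
  · intro w w'
    exact (u4_mul _ _).symm

theorem act_p4 (g : Matrix (Fin 4) (Fin 4) ℝ) : act p4 g = (gᵀ * B4 * g, L4 ᵥ* g) := rfl

theorem act_p4_u4 (t : ℝ) : act p4 (u4 t) = p4 := by
  rw [act_p4]
  apply Prod.ext
  · show (u4 t)ᵀ * B4 * u4 t = B4
    ext i j
    fin_cases i <;> fin_cases j <;>
      simp [u4, B4, Matrix.mul_apply, Fin.sum_univ_four] <;> ring
  · show L4 ᵥ* u4 t = L4
    ext j
    fin_cases j <;> simp [u4, L4, Matrix.vecMul, dotProduct, Fin.sum_univ_four]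

theorem act_p4_a4 (l : ℝ) (hl : l ≠ 0) : act p4 (a4 l) = p4 := by
  rw [act_p4]
  apply Prod.ext
  · show (a4 l)ᵀ * B4 * a4 l = B4
    ext i j
    fin_cases i <;> fin_cases j <;>
      simp [a4, B4, Matrix.mul_apply, Fin.sum_univ_four, hl]
  · show L4 ᵥ* a4 l = L4
    ext j
    fin_cases j <;> simp [a4, L4, Matrix.vecMul, dotProduct, Fin.sum_univ_four]

theorem act_p4_n4 (b μ α : ℝ) : act p4 (n4 b μ α) = (form4 1 (2*α) μ 0, cov4 1 b) := by
  rw [act_p4]
  apply Prod.ext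
  · show (n4 b μ α)ᵀ * B4 * n4 b μ α = form4 1 (2*α) μ 0
    ext i j
    fin_cases i <;> fin_cases j <;>
      simp [n4, B4, form4, Matrix.mul_apply, Fin.sum_univ_four] <;> ring
  · show L4 ᵥ* n4 b μ α = cov4 1 b
    ext j
    fin_cases j <;> simp [n4, L4, cov4, Matrix.vecMul, dotProduct, Fin.sum_univ_four]

theorem act_p4_z4n4 (c b μ α : ℝ) (hc : c ≠ 0) : act p4 (z4 c * n4 b μ α) =
    (form4 (c^2) (2*c^2*α) (c^2*μ) 0, cov4 (c^3)⁻¹ ((c^3)⁻¹ * b)) := by
  rw [act_p4]
  apply Prod.ext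
  · show (z4 c * n4 b μ α)ᵀ * B4 * (z4 c * n4 b μ α) = form4 (c^2) (2*c^2*α) (c^2*μ) 0
    ext i j
    fin_cases i <;> fin_cases j <;>
      simp [n4, z4, B4, form4, Matrix.mul_apply, Fin.sum_univ_four, Matrix.diagonal_apply] <;>
      ring
  · show L4 ᵥ* (z4 c * n4 b μ α) = cov4 (c^3)⁻¹ ((c^3)⁻¹ * b)
    ext j
    fin_cases j <;> simp [n4, z4, L4, cov4, Matrix.vecMul, dotProduct, Fin.sum_univ_four,
      Matrix.mul_apply, Matrix.diagonal_apply]

theorem act_form4 (θ α β γ a b t : ℝ) :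
    act (form4 θ α β γ, cov4 a b) (u4 t) = (form4 θ α β γ, cov4 a b) := by
  apply Prod.ext
  · show (u4 t)ᵀ * form4 θ α β γ * u4 t = form4 θ α β γ
    ext i j
    fin_cases i <;> fin_cases j <;>
      simp [u4, form4, Matrix.mul_apply, Fin.sum_univ_four] <;> ring
  · show cov4 a b ᵥ* u4 t = cov4 a b
    ext j
    fin_cases j <;> simp [u4, cov4, Matrix.vecMul, dotProduct, Fin.sum_univ_four]

theorem fixed_form (q : W (Fin 4)) (hq : q.1ᵀ = q.1) (h : ∀ t, act q (u4 t) = q) :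
    q = (form4 (q.1 0 2) (q.1 0 0) (q.1 0 3) (q.1 3 3), cov4 (q.2 3) (q.2 0)) := by
  obtain ⟨M, y⟩ := q
  have hs : ∀ i j, M i j = M j i := fun i j => congrFun (congrFun hq j) i
  have hM : ∀ t i j, ((u4 t)ᵀ * M * u4 t) i j = M i j := by
    intro t i j
    have := congrArg Prod.fst (h t)
    exact congrFun (congrFun this i) j
  have hy : ∀ t j, (y ᵥ* u4 t) j = y j := by
    intro t j
    have := congrArg Prod.snd (h t)
    exact congrFun this j
  have y1 := hy 1 1
  have y0 := hy 1 0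
  have y0' := hy (-1) 0
  simp [u4, Matrix.vecMul, dotProduct, Fin.sum_univ_four] at y0 y0' y1
  have e12 := hM 1 1 2
  have e11 := hM 1 1 1
  have e01 := hM 1 0 1
  have e01' := hM (-1) 0 1
  have e00 := hM 1 0 0
  have e00' := hM (-1) 0 0
  have e31 := hM 1 3 1
  have e30 := hM 1 3 0
  have e30' := hM (-1) 3 0
  simp [u4, Matrix.mul_apply, Fin.sum_univ_four] at e12 e11 e01 e01' e00 e00' e31 e30 e30'
  have s10 := hs 1 0
  have s20 := hs 2 0
  have s30 := hs 3 0
  have s21 := hs 2 1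
  have s31 := hs 3 1
  have s32 := hs 3 2
  have hy2 : y 2 = 0 := by linarith
  have hy1 : y 1 = 0 := by linarith
  have h22 : M 2 2 = 0 := by linarith
  have h12 : M 1 2 = 0 := by linarith
  have h21 : M 2 1 = 0 := by linarith
  have h32 : M 3 2 = 0 := by linarith
  have h23 : M 2 3 = 0 := by linarith
  have h31 : M 3 1 = 0 := by linarith
  have h13 : M 1 3 = 0 := by linarith
  have h11 : M 1 1 = - M 0 2 := by linarith
  have h01 : M 0 1 = 0 := by linarith
  have h10 : M 1 0 = 0 := by linarith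
  apply Prod.ext
  · ext i j
    fin_cases i <;> fin_cases j <;> simp [form4, *]
  · ext j
    fin_cases j <;> simp [cov4, *]

/-- bordered determinant -/
noncomputable def bd (q : W (Fin 4)) : ℝ := q.2 ⬝ᵥ (q.1.adjugate *ᵥ q.2)

theorem bd_act (q : W (Fin 4)) (g : Matrix (Fin 4) (Fin 4) ℝ) (hg : g.det = 1) :
    bd (act q g) = bd q := by
  unfold bd act
  simp only
  rw [Matrix.adjugate_mul_distrib, Matrix.adjugate_mul_distrib]
  have e1 : gᵀ.adjugate *ᵥ (q.2 ᵥ* g) = q.2 := by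
    rw [← Matrix.mulVec_transpose, Matrix.mulVec_mulVec, Matrix.adjugate_mul,
      Matrix.det_transpose, hg, one_smul, Matrix.one_mulVec]
  have e2 : (g.adjugate * (q.1.adjugate * gᵀ.adjugate)) *ᵥ (q.2 ᵥ* g) =
      g.adjugate *ᵥ (q.1.adjugate *ᵥ q.2) := by
    rw [← Matrix.mulVec_mulVec, ← Matrix.mulVec_mulVec, e1]
  rw [e2, Matrix.dotProduct_mulVec, Matrix.vecMul_vecMul, Matrix.mul_adjugate, hg, one_smul,
    Matrix.vecMul_one]

theorem adj00 (θ α β γ : ℝ) : (form4 θ α β γ).adjugate 0 0 = 0 := by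
  have e : (form4 θ α β γ).updateRow 0 (Pi.single 0 1) =
      !![1,0,0,0; 0,-θ,0,0; θ,0,0,0; β,0,0,γ] := by
    ext i j
    fin_cases i <;> fin_cases j <;> simp [form4, Matrix.updateRow_apply]
  rw [Matrix.adjugate_apply, e]
  simp [Matrix.det_succ_row_zero, Fin.sum_univ_succ, Fin.succAbove]

theorem adj03 (θ α β γ : ℝ) : (form4 θ α β γ).adjugate 0 3 = 0 := by
  have e : (form4 θ α β γ).updateRow 3 (Pi.single 0 1) =
      !![α,0,θ,β; 0,-θ,0,0; θ,0,0,0; 1,0,0,0] := by
    ext i j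
    fin_cases i <;> fin_cases j <;> simp [form4, Matrix.updateRow_apply]
  rw [Matrix.adjugate_apply, e]
  simp [Matrix.det_succ_row_zero, Fin.sum_univ_succ, Fin.succAbove]

theorem adj30 (θ α β γ : ℝ) : (form4 θ α β γ).adjugate 3 0 = 0 := by
  have e : (form4 θ α β γ).updateRow 0 (Pi.single 3 1) =
      !![0,0,0,1; 0,-θ,0,0; θ,0,0,0; β,0,0,γ] := by
    ext i j
    fin_cases i <;> fin_cases j <;> simp [form4, Matrix.updateRow_apply]
  rw [Matrix.adjugate_apply, e]
  simp [Matrix.det_succ_row_zero, Fin.sum_univ_succ, Fin.succAbove]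

theorem adj33 (θ α β γ : ℝ) : (form4 θ α β γ).adjugate 3 3 = θ^3 := by
  have e : (form4 θ α β γ).updateRow 3 (Pi.single 3 1) =
      !![α,0,θ,β; 0,-θ,0,0; θ,0,0,0; 0,0,0,1] := by
    ext i j
    fin_cases i <;> fin_cases j <;> simp [form4, Matrix.updateRow_apply]
  rw [Matrix.adjugate_apply, e]
  simp [Matrix.det_succ_row_zero, Fin.sum_univ_succ, Fin.succAbove]
  ring

theorem bd_form (θ α β γ a b : ℝ) : bd (form4 θ α β γ, cov4 a b) = θ^3 * a^2 := by
  simp only [bd, cov4, Matrix.mulVec, dotProduct, Fin.sum_univ_four, Matrix.cons_val]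
  rw [adj00, adj03, adj30, adj33]
  ring

theorem p4_form : p4 = (form4 1 0 0 0, cov4 1 0) := by
  apply Prod.ext
  · show B4 = form4 1 0 0 0
    ext i j
    fin_cases i <;> fin_cases j <;> simp [form4, B4]
  · show L4 = cov4 1 0
    ext j
    fin_cases j <;> simp [cov4, L4]

theorem det_form (θ α β γ : ℝ) : (form4 θ α β γ).det = θ^3 * γ := by
  simp [form4, Matrix.det_succ_row_zero, Fin.sum_univ_succ, Fin.succAbove]
  ring

theorem continuous_bd : Continuous bd := by
  unfold bd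
  fun_prop

theorem closure_form (q : W (Fin 4))
    (h : q ∈ closure {q : W (Fin 4) | ∃ g, g.det = 1 ∧ q = act p4 g}) :
    q.1.det = 0 ∧ bd q = 1 ∧ q.1ᵀ = q.1 := by
  have hcl : IsClosed {q : W (Fin 4) | q.1.det = 0 ∧ bd q = 1 ∧ q.1ᵀ = q.1} := by
    apply IsClosed.inter
    · exact isClosed_eq (by fun_prop) continuous_const
    · apply IsClosed.inter
      · exact isClosed_eq continuous_bd continuous_const
      · exact isClosed_eq (by fun_prop) (by fun_prop)
  have hsub : {q : W (Fin 4) | ∃ g, g.det = 1 ∧ q = act p4 g} ⊆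
      {q : W (Fin 4) | q.1.det = 0 ∧ bd q = 1 ∧ q.1ᵀ = q.1} := by
    rintro q ⟨g, hg, rfl⟩
    refine ⟨?_, ?_, ?_⟩
    · show (gᵀ * B4 * g).det = 0
      have : B4 = form4 1 0 0 0 := congrArg Prod.fst p4_form
      rw [Matrix.det_mul, Matrix.det_mul, this, det_form]
      simp
    · rw [bd_act _ _ hg, p4_form, bd_form]
      simp
    · show (gᵀ * B4 * g)ᵀ = gᵀ * B4 * g
      have : B4ᵀ = B4 := by
        ext i j
        fin_cases i <;> fin_cases j <;> simp [B4]
      rw [Matrix.transpose_mul, Matrix.transpose_mul, Matrix.transpose_transpose, this,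
        Matrix.mul_assoc]
  exact (hcl.closure_subset_iff.2 hsub) h

theorem fixed4 : QL.fixed4Statement := by
  refine ⟨?_, act_form4, ?_, act_p4_n4, ?_, act_p4_u4, act_p4_a4⟩
  · intro q hq h
    exact ⟨_, _, _, _, _, _, fixed_form q hq h⟩
  · intro θ α β γ a b h
    obtain ⟨h1, h2, -⟩ := closure_form _ h
    rw [bd_form] at h2
    refine ⟨?_, h2⟩
    rw [← det_form θ α β γ]; exact h1
  · intro c b μ α hc
    exact act_p4_z4n4 c b μ α hc

end QL.H14
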