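import Pool.Agent.Helper14_QL.Struct4

set_option autoImplicit false
set_option linter.unusedVariables false
open Matrix Polynomial MeasureTheory Set Filter Topology

namespace QL.H14

theorem unit_eval_one {p q : ℝ[X]} (h : p * q = 1) (h0 : p.eval 0 = 1) : p = 1 := by
  have hu : IsUnit p := IsUnit.of_mul_eq_one _ h
  obtain ⟨r, hr, rfl⟩ := Polynomial.isUnit_iff.1 hu
  rw [Polynomial.eval_C] at h0
  rw [h0, Polynomial.C_1]

theorem tendsto_act_p4 {g : ℕ → Matrix (Fin 4) (Fin 4) ℝ} (hg : Tendsto g atTop (𝓝 1)) :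
    Tendsto (fun i => act p4 (g i)) atTop (𝓝 p4) := by
  have h1 := (continuous_act_p4.tendsto 1).comp hg
  have h2 : act p4 (1 : Matrix (Fin 4) (Fin 4) ℝ) = p4 := by
    unfold act; simp
  rw [h2] at h1
  exact h1

theorem alpha4 (hdr : QL.driftStatement) : QL.alpha4Statement := by
  intro S hS U hU Y x hret g hg hdet hD hnf
  obtain ⟨P, hP0, ⟨ω, hω⟩, hpol, hfix, hDD, hcl⟩ := hdr U S hS Y x hret
    (fun i => act p4 (g i)) p4 hD (tendsto_act_p4 hg)
    (fun i => by
      obtain ⟨t, ht⟩ := hnf i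
      exact ⟨fun _ => t, by rw [hU]; exact ht⟩)
    (fun w => by rw [hU]; exact act_p4_u4 _)
  obtain ⟨A, b, hAb⟩ := hpol ω
  have hsub : {q' : W (Fin 4) | ∃ i w, q' = act (act p4 (g i)) (U.u w)} ⊆
      {q : W (Fin 4) | ∃ g, g.det = 1 ∧ q = act p4 g} := by
    rintro q ⟨i, w, rfl⟩
    exact ⟨g i * U.u w, by rw [Matrix.det_mul, hdet, U.det_one, one_mul], by rw [act_mul]⟩
  have hcl' : ∀ t : ℝ, (P (t • ω)).1.det = 0 ∧ bd (P (t • ω)) = 1 ∧
      (P (t • ω)).1ᵀ = (P (t • ω)).1 := fun t =>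
    closure_form _ (closure_mono hsub (hcl (t • ω)))
  have hform : ∀ t : ℝ, P (t • ω) = (form4 ((A 0 2).eval t) ((A 0 0).eval t) ((A 0 3).eval t)
      ((A 3 3).eval t), cov4 ((b 3).eval t) ((b 0).eval t)) := by
    intro t
    have h1 := fixed_form (P (t • ω)) (hcl' t).2.2 (by
      intro s
      have := hfix (t • ω) (fun _ => s)
      rw [hU] at this
      exact this)
    rw [h1, hAb t]
    rfl
  have hdet0 : ∀ t : ℝ, ((A 0 2).eval t)^3 * (A 3 3).eval t = 0 := by
    intro t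
    have h1 := (hcl' t).1
    rw [hform t] at h1
    rw [← det_form]; exact h1
  have hbd1 : ∀ t : ℝ, ((A 0 2).eval t)^3 * ((b 3).eval t)^2 = 1 := by
    intro t
    have h1 := (hcl' t).2.1
    rw [hform t, bd_form] at h1
    exact h1
  have hP0' : P ((0:ℝ) • ω) = p4 := by rw [zero_smul, hP0]
  have h0 := hAb 0
  rw [hP0'] at h0
  have hA0 : ∀ i j, (A i j).eval 0 = B4 i j := by
    intro i j
    have := congrFun (congrFun (congrArg Prod.fst h0) i) j
    exact this.symm
  have hb0 : ∀ i, (b i).eval 0 = L4 i := by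
    intro i
    have := congrFun (congrArg Prod.snd h0) i
    exact this.symm
  have hprod : (A 0 2)^3 * (b 3)^2 = 1 := by
    apply Polynomial.funext
    intro t
    simp only [Polynomial.eval_mul, Polynomial.eval_pow, Polynomial.eval_one]
    exact hbd1 t
  have hθ : A 0 2 = 1 := by
    apply unit_eval_one (q := (A 0 2)^2 * (b 3)^2)
    · rw [← hprod]; ring
    · rw [hA0]; simp [B4]
  have hb3 : b 3 = 1 := by
    apply unit_eval_one (q := (A 0 2)^3 * (b 3))
    · rw [← hprod]; ring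
    · rw [hb0]; simp [L4]
  have hγ : ∀ t : ℝ, (A 3 3).eval t = 0 := by
    intro t
    have := hdet0 t
    rw [hθ] at this
    simpa using this
  have hPn : ∀ t : ℝ, P (t • ω) =
      act p4 (n4 ((b 0).eval t) ((A 0 3).eval t) ((Polynomial.C (1/2) * A 0 0).eval t)) := by
    intro t
    rw [hform t, act_p4_n4, hθ, hb3, hγ t]
    simp only [Polynomial.eval_mul, Polynomial.eval_C, Polynomial.eval_one]
    congr 2
    ring
  refine ⟨b 0, A 0 3, Polynomial.C (1/2) * A 0 0, ?_, ?_, ?_, ?_, ?_⟩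
  · rw [hb0]; simp [L4]
  · rw [hA0]; simp [B4]
  · rw [Polynomial.eval_mul, hA0]; simp [B4]
  · by_contra hcon
    push Not at hcon
    apply hω
    have h1 := hPn 1
    rw [one_smul] at h1
    rw [h1, hcon.1, hcon.2.1, hcon.2.2]
    simp only [Polynomial.eval_zero]
    rw [n4_zero]
    unfold act; simp
  · intro t _ x' hx'
    rw [← hPn t]
    exact hDD _ x' hx'

end QL.H14
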