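import Pool.Agent.Helper14_QL.Alg4

set_option autoImplicit false
set_option linter.unusedVariables false
open Matrix Polynomial MeasureTheory Set Filter Topology

namespace QL.H14

theorem L4_ne : L4 ≠ 0 := by
  intro h
  have := congrFun h 3
  simp [L4] at this

theorem hrk4 (a b : ℝ) (ha : a ≠ 0) :
    ¬ ∃ v v' : Fin 4 → ℝ, a • B4 + b • vecMulVec L4 L4 = vecMulVec v v' := by
  rintro ⟨v, v', h⟩
  have e02 := congrFun (congrFun h 0) 2
  have e11 := congrFun (congrFun h 1) 1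
  have e01 := congrFun (congrFun h 0) 1
  have e12 := congrFun (congrFun h 1) 2
  simp [B4, L4, vecMulVec_apply] at e02 e11 e01 e12
  have : -(a * a) = 0 := by
    calc -(a*a) = a * (-a) := by ring
      _ = (v 0 * v' 2) * (v 1 * v' 1) := by rw [e11, e02]
      _ = (v 0 * v' 1) * (v 1 * v' 2) := by ring
      _ = 0 := by
        rcases e01 with h0 | h0 <;> rw [h0] <;> ring
  apply ha
  nlinarith

theorem uniqL_TL4 (hp : QL.pencilStatement) : UniqL TL4 := by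
  have h1 : UniqL ([tube1 L4] : List (Tube (Fin 4))) := uniq_tube1 L4 [] trivial
  have h2 : UniqL ([tube1 c4, tube1 L4] : List (Tube (Fin 4))) := uniq_tube1 c4 _ h1
  exact uniq_tube2_pencil hp B4 L4 L4_ne hrk4 _ h2 (by simp)

theorem B4_u4 (t : ℝ) : (u4 t)ᵀ * B4 * u4 t = B4 := congrArg Prod.fst (act_p4_u4 t)
theorem L4_u4 (t : ℝ) : L4 ᵥ* u4 t = L4 := congrArg Prod.snd (act_p4_u4 t)
theorem c4_u4 (t : ℝ) : c4 ᵥ* u4 t = c4 := by
  ext j
  fin_cases j <;> simp [u4, c4, Matrix.vecMul, dotProduct, Fin.sum_univ_four]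

theorem act_vv {ι : Type} [Fintype ι] (l : ι → ℝ) (g : Matrix ι ι ℝ) :
    gᵀ * vecMulVec l l * g = vecMulVec (l ᵥ* g) (l ᵥ* g) := by
  rw [Matrix.mul_vecMulVec, Matrix.vecMulVec_mul, Matrix.mulVec_transpose]

theorem F4_u4 (t : ℝ) : ∀ M ∈ F4, (u4 t)ᵀ * M * u4 t = M := by
  intro M hM
  obtain ⟨a, b, rfl⟩ := Submodule.mem_span_pair.1 hM
  simp only [Matrix.mul_add, Matrix.add_mul, Matrix.mul_smul, Matrix.smul_mul]
  rw [act_vv, B4_u4, L4_u4]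

theorem fix_TL4 (t : ℝ) : ∀ T ∈ TL4, ∀ v, T.Pi v = 0 → ract false T.k (u4 t) v = v := by
  intro T hT v hv
  simp only [TL4, List.mem_cons, List.not_mem_nil, or_false] at hT
  rcases hT with rfl | rfl | rfl
  · exact fix_tube2 F4 (u4 t) (det_u4 t) (F4_u4 t) v hv
  · exact fix_tube1 c4 (u4 t) (det_u4 t) (c4_u4 t) v hv
  · exact fix_tube1 L4 (u4 t) (det_u4 t) (L4_u4 t) v hv

theorem ns_TL4 (g : Matrix (Fin 4) (Fin 4) ℝ) : g ∈ ns TL4 ↔ (g.det = 1 ∧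
    (∀ w : Fin 4 → ℤ, w ≠ 0 → ¬ ∃ c : ℝ, iv w = c • (L4 ᵥ* g)) ∧
    (∀ w : Fin 4 → ℤ, w ≠ 0 → ¬ ∃ c : ℝ, iv w = c • (c4 ᵥ* g)) ∧
    (∀ R : Matrix (Fin 4) (Fin 4) ℤ, R ≠ 0 → ¬ ∃ a b : ℝ,
      im R = a • (gᵀ * B4 * g) + b • vecMulVec (L4 ᵥ* g) (L4 ᵥ* g))) := by
  have key : ∀ R : Matrix (Fin 4) (Fin 4) ℤ, (∃ M ∈ F4, im R = gᵀ * M * g) ↔
      ∃ a b : ℝ, im R = a • (gᵀ * B4 * g) + b • vecMulVec (L4 ᵥ* g) (L4 ᵥ* g) := by
    intro R
    constructor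
    · rintro ⟨M, hM, h⟩
      obtain ⟨a, b, rfl⟩ := Submodule.mem_span_pair.1 hM
      refine ⟨a, b, ?_⟩
      rw [h]
      simp only [Matrix.mul_add, Matrix.add_mul, Matrix.mul_smul, Matrix.smul_mul]
      rw [act_vv]
    · rintro ⟨a, b, h⟩
      refine ⟨a • B4 + b • vecMulVec L4 L4, Submodule.mem_span_pair.2 ⟨a, b, rfl⟩, ?_⟩
      rw [h]
      simp only [Matrix.mul_add, Matrix.add_mul, Matrix.mul_smul, Matrix.smul_mul]
      rw [act_vv]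
  constructor
  · rintro ⟨hg, h⟩
    refine ⟨hg, ?_, ?_, ?_⟩
    · intro w hw hc
      exact h (tube1 L4) (by simp [TL4]) ((sing_tube1 L4 g hg).2 ⟨w, hw, hc⟩)
    · intro w hw hc
      exact h (tube1 c4) (by simp [TL4]) ((sing_tube1 c4 g hg).2 ⟨w, hw, hc⟩)
    · intro R hR hc
      exact h (tube2 F4) (by simp [TL4]) ((sing_tube2 F4 g hg).2 ⟨R, hR, (key R).2 hc⟩)
  · rintro ⟨hg, h1, h2, h3⟩
    refine ⟨hg, ?_⟩
    intro T hT hS
    simp only [TL4, List.mem_cons, List.not_mem_nil, or_false] at hT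
    rcases hT with rfl | rfl | rfl
    · obtain ⟨R, hR, hM⟩ := (sing_tube2 F4 g hg).1 hS
      exact h3 R hR ((key R).1 hM)
    · obtain ⟨w, hw, hc⟩ := (sing_tube1 c4 g hg).1 hS
      exact h2 w hw hc
    · obtain ⟨w, hw, hc⟩ := (sing_tube1 L4 g hg).1 hS
      exact h1 w hw hc

theorem TL4_facts (hp : QL.pencilStatement) : QL.TL4_factsStatement :=
  ⟨uniqL_TL4 hp, fix_TL4, ns_TL4⟩

theorem conj4 : QL.conj4Statement := by
  have hact : ∀ r, act p4 (u4 r)ᵀ = p4 := by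
    intro r
    rw [act_p4]
    apply Prod.ext
    · show (u4 r)ᵀᵀ * B4 * (u4 r)ᵀ = B4
      ext i j
      fin_cases i <;> fin_cases j <;>
        simp [u4, B4, Matrix.mul_apply, Fin.sum_univ_four] <;> ring
    · show L4 ᵥ* (u4 r)ᵀ = L4
      ext j
      fin_cases j <;> simp [u4, L4, Matrix.vecMul, dotProduct, Fin.sum_univ_four]
  refine ⟨hact, ?_⟩
  intro g hg h1 h2
  -- bad parameters form a countable set
  let f : (Fin 4 → ℤ) → ℝ := fun w => (iv w ᵥ* g⁻¹) 1 / (iv w ᵥ* g⁻¹) 0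
  obtain ⟨r, hr⟩ : ∃ r : ℝ, r ∉ Set.range f := by
    by_contra hcon
    push Not at hcon
    have hu : (Set.univ : Set ℝ) ⊆ Set.range f := fun x _ => hcon x
    have hc : (Set.univ : Set ℝ).Countable := (Set.countable_range f).mono hu
    exact Set.not_countable_univ hc
  refine ⟨r, ?_⟩
  have hB : ((u4 r)ᵀ * g)ᵀ * B4 * ((u4 r)ᵀ * g) = gᵀ * B4 * g := by
    have h0 : (u4 r)ᵀᵀ * B4 * (u4 r)ᵀ = B4 := congrArg Prod.fst (hact r)
    have : ((u4 r)ᵀ * g)ᵀ * B4 * ((u4 r)ᵀ * g) = gᵀ * ((u4 r)ᵀᵀ * B4 * (u4 r)ᵀ) * g := by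
      rw [Matrix.transpose_mul]
      simp only [Matrix.mul_assoc]
    rw [this, h0]
  have hL : L4 ᵥ* ((u4 r)ᵀ * g) = L4 ᵥ* g := by
    have h0 : L4 ᵥ* (u4 r)ᵀ = L4 := congrArg Prod.snd (hact r)
    rw [← Matrix.vecMul_vecMul, h0]
  rw [ns_TL4, hB, hL]
  refine ⟨?_, h1, ?_, h2⟩
  · rw [Matrix.det_mul, Matrix.det_transpose, det_u4, hg, one_mul]
  · rintro w hw ⟨c, hc⟩
    have e : iv w ᵥ* g⁻¹ = c • (c4 ᵥ* (u4 r)ᵀ) := by
      rw [hc, Matrix.smul_vecMul, ← Matrix.vecMul_vecMul c4, Matrix.vecMul_vecMul _ g g⁻¹,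
        mul_inv' hg, Matrix.vecMul_one]
    have k0 : (c4 ᵥ* (u4 r)ᵀ) 0 = 1 := by
      simp only [Matrix.vecMul, dotProduct, Fin.sum_univ_four, Matrix.transpose_apply]
      simp [c4, u4]
    have k1 : (c4 ᵥ* (u4 r)ᵀ) 1 = r := by
      simp only [Matrix.vecMul, dotProduct, Fin.sum_univ_four, Matrix.transpose_apply]
      simp [c4, u4]
    have e0 : (iv w ᵥ* g⁻¹) 0 = c := by
      rw [e, Pi.smul_apply, k0, smul_eq_mul, mul_one]
    have e1 : (iv w ᵥ* g⁻¹) 1 = c * r := by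
      rw [e, Pi.smul_apply, k1, smul_eq_mul]
    have hc0 : c ≠ 0 := by
      rintro rfl
      apply hw
      rw [zero_smul] at hc
      ext i
      have := congrFun hc i
      simpa [iv] using this
    apply hr
    refine ⟨w, ?_⟩
    show (iv w ᵥ* g⁻¹) 1 / (iv w ᵥ* g⁻¹) 0 = r
    rw [e0, e1]
    field_simp

end QL.H14
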