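import Pool.Agent.Helper14_QL.Facts4

set_option autoImplicit false
set_option linter.unusedVariables false
open Matrix Polynomial MeasureTheory Set Filter Topology

namespace QL.H14

theorem act_mul (q : W (Fin 4)) (g h : Matrix (Fin 4) (Fin 4) ℝ) :
    act (act q g) h = act q (g * h) := by
  unfold act
  apply Prod.ext
  · simp only [Matrix.transpose_mul, Matrix.mul_assoc]
  · simp only [Matrix.vecMul_vecMul]

theorem hblock : QL.hblockStatement := by
  intro h hd hp
  have hB : hᵀ * B4 * h = B4 := congrArg Prod.fst hp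
  have hL : L4 ᵥ* h = L4 := congrArg Prod.snd hp
  have hrow : ∀ j, h 3 j = L4 j := by
    intro j
    have := congrFun hL j
    rw [← this]
    simp [L4, Matrix.vecMul, dotProduct, Fin.sum_univ_four]
  -- the last column
  have hcol : B4 *ᵥ (h *ᵥ Pi.single 3 1) = 0 := by
    have e1 : hᵀ *ᵥ (B4 *ᵥ (h *ᵥ Pi.single 3 1)) = 0 := by
      rw [Matrix.mulVec_mulVec, Matrix.mulVec_mulVec, hB]
      ext i
      fin_cases i <;> simp [B4]
    have e2 : (h⁻¹)ᵀ *ᵥ (hᵀ *ᵥ (B4 *ᵥ (h *ᵥ Pi.single 3 1))) = B4 *ᵥ (h *ᵥ Pi.single 3 1) := by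
      rw [Matrix.mulVec_mulVec, ← Matrix.transpose_mul, mul_inv' hd, Matrix.transpose_one,
        Matrix.one_mulVec]
    rw [← e2, e1, Matrix.mulVec_zero]
  have k0 : h 2 3 = 0 := by
    have := congrFun hcol 0
    simpa [B4, Matrix.mulVec, dotProduct, Fin.sum_univ_four] using this
  have k1 : h 1 3 = 0 := by
    have := congrFun hcol 1
    simpa [B4, Matrix.mulVec, dotProduct, Fin.sum_univ_four] using this
  have k2 : h 0 3 = 0 := by
    have := congrFun hcol 2
    simpa [B4, Matrix.mulVec, dotProduct, Fin.sum_univ_four] using this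
  have r0 : h 3 0 = 0 := by rw [hrow]; simp [L4]
  have r1 : h 3 1 = 0 := by rw [hrow]; simp [L4]
  have r2 : h 3 2 = 0 := by rw [hrow]; simp [L4]
  have r3 : h 3 3 = 1 := by rw [hrow]; simp [L4]
  refine ⟨?_, r3, ?_, ?_⟩
  · intro i
    fin_cases i
    · exact ⟨k2, r0⟩
    · exact ⟨k1, r1⟩
    · exact ⟨k0, r2⟩
  · ext i j
    have := congrFun (congrFun hB i.castSucc) j.castSucc
    simp only [Matrix.mul_apply, Matrix.transpose_apply, Fin.sum_univ_four] at this
    fin_cases i <;> fin_cases j <;>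
      simp [B4, B3, Matrix.mul_apply, Fin.sum_univ_three] at this ⊢ <;> exact this
  · have e : h.det = (h.submatrix Fin.castSucc Fin.castSucc).det := by
      rw [Matrix.det_succ_row h 3]
      simp only [Fin.sum_univ_four, r0, r1, r2, r3]
      have : (Fin.succAbove (3 : Fin 4)) = (Fin.castSucc : Fin 3 → Fin 4) := by
        ext i; fin_cases i <;> rfl
      rw [this]
      norm_num
    rw [← e, hd]

theorem continuous_act_p4 : Continuous (fun g : Matrix (Fin 4) (Fin 4) ℝ => act p4 g) := by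
  unfold act
  fun_prop

theorem continuous_n4 : Continuous (fun y : ℝ × ℝ × ℝ => n4 y.1 y.2.1 y.2.2) := by
  apply continuous_matrix
  intro i j
  fin_cases i <;> fin_cases j <;> simp [n4] <;> fun_prop

theorem n4_zero : n4 0 0 0 = 1 := by
  ext i j
  fin_cases i <;> fin_cases j <;> simp [n4]

theorem z4_mul (c c' : ℝ) : z4 c * z4 c' = z4 (c * c') := by
  ext i j
  fin_cases i <;> fin_cases j <;>
    simp [z4, Matrix.mul_apply, Fin.sum_univ_four, Matrix.diagonal_apply] <;> ring

theorem z4_one : z4 1 = 1 := by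
  ext i j
  fin_cases i <;> fin_cases j <;> simp [z4, Matrix.diagonal_apply]

theorem tendsto_z4 {c : ℕ → ℝ} (hc : Tendsto c atTop (𝓝 1)) :
    Tendsto (fun i => z4 (c i)) atTop (𝓝 1) := by
  rw [← z4_one]
  refine tendsto_pi_nhds.2 fun i => tendsto_pi_nhds.2 fun j => ?_
  have h3 : Tendsto (fun i => (c i ^ 3)⁻¹) atTop (𝓝 ((1:ℝ)^3)⁻¹) :=
    (hc.pow 3).inv₀ (by norm_num)
  fin_cases i <;> fin_cases j <;> simp [z4, Matrix.diagonal_apply] <;>
    first | exact hc | exact tendsto_const_nhds | simpa using h3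

theorem struct4 : QL.struct4Statement := by
  intro g hg hdet hf
  -- the forms
  let q : ℕ → W (Fin 4) := fun i => act p4 (g i)
  have hq : Tendsto q atTop (𝓝 p4) := by
    have h1 := (continuous_act_p4.tendsto 1).comp hg
    have h2 : act p4 (1 : Matrix (Fin 4) (Fin 4) ℝ) = p4 := by
      unfold act; simp
    rw [h2] at h1
    exact h1
  have hcl : ∀ i, (q i).1.det = 0 ∧ bd (q i) = 1 ∧ (q i).1ᵀ = (q i).1 := fun i =>
    closure_form _ (subset_closure ⟨g i, hdet i, rfl⟩)
  have hform : ∀ i, q i = (form4 ((q i).1 0 2) ((q i).1 0 0) ((q i).1 0 3) ((q i).1 3 3),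
      cov4 ((q i).2 3) ((q i).2 0)) := fun i => fixed_form (q i) (hcl i).2.2 (hf i)
  have h1 : ∀ a b, Tendsto (fun i => (q i).1 a b) atTop (𝓝 (p4.1 a b)) := by
    intro a b
    have c1 : Continuous (fun y : W (Fin 4) => y.1 a b) := by fun_prop
    exact (c1.tendsto p4).comp hq
  have h2 : ∀ a, Tendsto (fun i => (q i).2 a) atTop (𝓝 (p4.2 a)) := by
    intro a
    have c1 : Continuous (fun y : W (Fin 4) => y.2 a) := by fun_prop
    exact (c1.tendsto p4).comp hq
  let θ : ℕ → ℝ := fun i => (q i).1 0 2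
  let c : ℕ → ℝ := fun i => √(θ i)
  let a : ℕ → ℝ := fun i => (q i).2 3
  let b : ℕ → ℝ := fun i => c i ^ 3 * (q i).2 0
  let μ : ℕ → ℝ := fun i => (q i).1 0 3 / c i ^ 2
  let α : ℕ → ℝ := fun i => (q i).1 0 0 / (2 * c i ^ 2)
  have hθ : Tendsto θ atTop (𝓝 1) := by
    have := h1 0 2
    simpa [p4, B4] using this
  have hc : Tendsto c atTop (𝓝 1) := by
    have := (Real.continuous_sqrt.tendsto 1).comp hθ
    rw [Real.sqrt_one] at this
    exact this
  have ha : Tendsto a atTop (𝓝 1) := by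
    have := h2 3
    simpa [p4, L4] using this
  have hb : Tendsto b atTop (𝓝 0) := by
    have e := h2 0
    have e' : Tendsto (fun i => (q i).2 0) atTop (𝓝 0) := by simpa [p4, L4] using e
    have := (hc.pow 3).mul e'
    simpa using this
  have hμ : Tendsto μ atTop (𝓝 0) := by
    have e := h1 0 3
    have e' : Tendsto (fun i => (q i).1 0 3) atTop (𝓝 0) := by simpa [p4, B4] using e
    have h' : Tendsto μ atTop (𝓝 (0 / 1 ^ 2)) := e'.div (hc.pow 2) (by norm_num)
    simpa using h'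
  have hα : Tendsto α atTop (𝓝 0) := by
    have e := h1 0 0
    have e' : Tendsto (fun i => (q i).1 0 0) atTop (𝓝 0) := by simpa [p4, B4] using e
    have h' : Tendsto α atTop (𝓝 (0 / (2 * 1 ^ 2))) :=
      e'.div ((hc.pow 2).const_mul 2) (by norm_num)
    simpa using h'
  have hev : ∀ᶠ i in atTop, 0 < θ i ∧ 0 < a i :=
    (hθ.eventually (lt_mem_nhds one_pos)).and (ha.eventually (lt_mem_nhds one_pos))
  obtain ⟨i0, hi0⟩ := Filter.eventually_atTop.1 hev
  let h : ℕ → Matrix (Fin 4) (Fin 4) ℝ := fun i =>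
    g i * (n4 (-(b i)) (-(μ i)) (μ i * b i - α i) * z4 ((c i)⁻¹))
  refine ⟨i0, h, c, b, μ, α, ?_, hc, hb, hμ, hα, ?_⟩
  · have e1 : Tendsto (fun i => n4 (-(b i)) (-(μ i)) (μ i * b i - α i)) atTop (𝓝 1) := by
      have h0 : Tendsto (fun i => (-(b i), -(μ i), μ i * b i - α i)) atTop
          (𝓝 ((0 : ℝ), (0 : ℝ), (0 : ℝ))) := by
        have := hb.neg.prodMk_nhds (hμ.neg.prodMk_nhds ((hμ.mul hb).sub hα))
        simpa using this
      have h1 := (continuous_n4.tendsto (0, 0, 0)).comp h0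
      rw [n4_zero] at h1
      exact h1
    have e2 : Tendsto (fun i => z4 ((c i)⁻¹)) atTop (𝓝 1) := by
      apply tendsto_z4
      simpa using hc.inv₀ (by norm_num)
    have := hg.mul (e1.mul e2)
    simpa using this
  · intro i hi
    obtain ⟨hθi, hai⟩ := hi0 i hi
    have hci : 0 < c i := Real.sqrt_pos.2 hθi
    have hci0 : c i ≠ 0 := hci.ne'
    have hc2 : c i ^ 2 = θ i := Real.sq_sqrt hθi.le
    have hn : n4 (-(b i)) (-(μ i)) (μ i * b i - α i) * n4 (b i) (μ i) (α i) = 1 := by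
      rw [n4_mul, ← n4_zero]
      congr 1 <;> ring
    have hn' : n4 (b i) (μ i) (α i) * n4 (-(b i)) (-(μ i)) (μ i * b i - α i) = 1 := by
      rw [n4_mul, ← n4_zero]
      congr 1 <;> ring
    have hz : z4 ((c i)⁻¹) * z4 (c i) = 1 := by
      rw [z4_mul, inv_mul_cancel₀ hci0, z4_one]
    have hz' : z4 (c i) * z4 ((c i)⁻¹) = 1 := by
      rw [z4_mul, mul_inv_cancel₀ hci0, z4_one]
    -- the form of `z4 c * n4`
    have hqi : act p4 (z4 (c i) * n4 (b i) (μ i) (α i)) = q i := by
      rw [act_p4_z4n4 _ _ _ _ hci0, hform i]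
      have hdet0 := (hcl i).1
      have hbd := (hcl i).2.1
      rw [hform i] at hdet0 hbd
      simp only at hdet0
      rw [det_form] at hdet0
      rw [bd_form] at hbd
      have hγ : (q i).1 3 3 = 0 := by
        rcases mul_eq_zero.1 hdet0 with h0 | h0
        · exact absurd h0 (pow_ne_zero 3 hθi.ne')
        · exact h0
      have ha' : a i = (c i ^ 3)⁻¹ := by
        have e1 : (c i ^ 3 * a i) ^ 2 = 1 := by
          have : (c i ^ 3 * a i) ^ 2 = (c i ^ 2) ^ 3 * a i ^ 2 := by ring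
          rw [this, hc2]; exact hbd
        have e2 : c i ^ 3 * a i = 1 := by
          have hpos : 0 < c i ^ 3 * a i := by positivity
          nlinarith
        field_simp
        linarith
      have eα : 2 * c i ^ 2 * α i = (q i).1 0 0 := by
        show 2 * c i ^ 2 * ((q i).1 0 0 / (2 * c i ^ 2)) = _
        field_simp
      have eμ : c i ^ 2 * μ i = (q i).1 0 3 := by
        show c i ^ 2 * ((q i).1 0 3 / c i ^ 2) = _
        field_simp
      have eb : (c i ^ 3)⁻¹ * b i = (q i).2 0 := by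
        show (c i ^ 3)⁻¹ * (c i ^ 3 * (q i).2 0) = _
        field_simp
      have ea : (c i ^ 3)⁻¹ = (q i).2 3 := ha'.symm
      rw [eα, eμ, eb, ea, hc2, hγ]
    refine ⟨hci, ?_, ?_, ?_⟩
    · show g i = g i * (n4 (-(b i)) (-(μ i)) (μ i * b i - α i) * z4 ((c i)⁻¹)) *
        z4 (c i) * n4 (b i) (μ i) (α i)
      have : g i * (n4 (-(b i)) (-(μ i)) (μ i * b i - α i) * z4 ((c i)⁻¹)) *
          z4 (c i) * n4 (b i) (μ i) (α i) =
          g i * (n4 (-(b i)) (-(μ i)) (μ i * b i - α i) * (z4 ((c i)⁻¹) *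
          z4 (c i)) * n4 (b i) (μ i) (α i)) := by
        simp only [Matrix.mul_assoc]
      rw [this, hz, Matrix.mul_one, hn, Matrix.mul_one]
    · show act p4 (g i * (n4 (-(b i)) (-(μ i)) (μ i * b i - α i) * z4 ((c i)⁻¹))) = p4
      rw [← act_mul]
      have e1 : act p4 (g i) = act p4 (z4 (c i) * n4 (b i) (μ i) (α i)) := hqi.symm
      rw [e1, act_mul]
      have : z4 (c i) * n4 (b i) (μ i) (α i) *
          (n4 (-(b i)) (-(μ i)) (μ i * b i - α i) * z4 ((c i)⁻¹)) =
          z4 (c i) * (n4 (b i) (μ i) (α i) *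
          n4 (-(b i)) (-(μ i)) (μ i * b i - α i)) * z4 ((c i)⁻¹) := by
        simp only [Matrix.mul_assoc]
      rw [this, hn', Matrix.mul_one, hz']
      unfold act; simp
    · show (g i * (n4 (-(b i)) (-(μ i)) (μ i * b i - α i) * z4 ((c i)⁻¹))).det = 1
      rw [Matrix.det_mul, Matrix.det_mul, hdet, det_n4, det_z4 _ (inv_ne_zero hci0)]
      norm_num

end QL.H14
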